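import Mathlib
import Pool.Agent.Helper94.UG.Main

/-!
There are an order continuous Banach lattice `E` and an operator `K` on `E` which is not disjointly
strictly singular, although `T + K` is disjointly non-singular for every disjointly non-singular
operator `T` on `E`: the disjointly strictly singular operators are not the perturbation class of the
disjointly non-singular operators.

The definitions, from `Pool.Agent.Helper94.UG.DN`:

* `Disj x`: `|x m| ⊓ |x n| = 0` for `m ≠ n`;
* `clspan x`: the closed linear span of the sequence `x`;
* `IsoOn T M`: there is `c > 0` with `c * ‖v‖ ≤ ‖T v‖` for all `v` in the subspace `M`;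
* `SSOn T M`: `IsoOn T N` for no closed infinite-dimensional subspace `N ≤ M`;
* `DSS E Y`: the operators `T : E → Y` such that there is no disjoint sequence `x` of nonzero vectors
  with `IsoOn T (clspan x)`;
* `DNS E Y`: the operators `T : E → Y` such that there is no disjoint sequence `x` of nonzero vectors
  with `SSOn T (clspan x)`;
* `PDNS E Y`: the operators `K : E → Y` with `T + K ∈ DNS E Y` for all `T ∈ DNS E Y`;
* `OrdCont E`: every decreasing net in `E` with infimum `0` converges to `0` in norm.

The space is `E = U × G`, where `G` is an unconditional Gowers space (a Banach lattice of real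
sequences on which every operator is a diagonal operator plus an operator which tends to zero on the
rapidly increasing sequences), `U` is the sublattice of the functions which are constant on
successive blocks whose indicator functions have norms tending to infinity, and `K (x, y) = (0, x)`.
-/

set_option autoImplicit false

namespace Pool.Agent.Results.MP_4f5308_an.PerturbationClass

open Pool.Agent.Helper94.UG

/-- **The disjointly strictly singular operators are not the perturbation class of the disjointly
non-singular operators.** -/
theorem result :
    ∃ (E : Type) (_ : NormedAddCommGroup E) (_ : NormedSpace ℝ E) (_ : CompleteSpace E)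
      (_ : Lattice E) (_ : IsOrderedAddMonoid E) (_ : IsOrderedModule ℝ E) (_ : HasSolidNorm E),
      OrdCont E ∧ (DNS E E).Nonempty ∧ ∃ K ∈ PDNS E E, K ∉ DSS E E := by
  refine ⟨EE, inferInstance, inferInstance, inferInstance, inferInstance, inferInstance, ?_,
    inferInstance, EE_ordCont, ⟨_, id_DNS⟩, KK, fun T hT => KK_pert T hT, KK_not_DSS⟩
  exact
    { smul_le_smul_of_nonneg_left := fun c hc x y h =>
        ⟨smul_le_smul_of_nonneg_left h.1 hc, smul_le_smul_of_nonneg_left h.2 hc⟩
      smul_le_smul_of_nonneg_right := fun x hx c d h =>
        ⟨smul_le_smul_of_nonneg_right h hx.1, smul_le_smul_of_nonneg_right h hx.2⟩ }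

end Pool.Agent.Results.MP_4f5308_an.PerturbationClass
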